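import Pool.Agent.Helper6.CS.Goals1

/-!
# Project CS, packet LH0
-/

namespace Pool.Agent.Helper85.CS

open Pool.Agent.Helper6.CS

set_option synthInstance.maxSize 1000000000

variable {M : Type} [World M]

theorem eq_of_over_one {a a' : Wd M} (h : Over 1 a) (h' : Over 1 a') (hl : a.len = a'.len) :
    a = a' := by
  have key : ∀ w : Wd M, Over 1 w → ∀ i, i < w.len → w.get i = 0 := by
    intro w hw i hi
    have h1 := hw i hi
    have h2 : w.get i < 0 + 1 := by rw [zero_add]; exact h1
    exact le_antisymm ((World.lt_succ _ _).1 h2) (World.zero_le' _)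
  exact Wd.ext' hl fun i hi => by rw [key a h i hi, key a' h' i (hl ▸ hi)]

theorem t_LH0 (hC : G_CDF) : G_LH0 := by
  intro M _ L k r
  obtain ⟨h, hh⟩ := (hC M L k).2 (fun w => w) inferInstance
  have hS : ∀ b : M, Sys L b k k h := by
    intro b
    refine ⟨?_, ?_, ?_⟩
    · intro a c _ hcL hac hak
      have haL : Over L a := Over.mono hcL hac
      rw [hh a haL hak]
      exact ⟨hac, hak⟩
    · intro a x c haL hak _ _ hcL
      rw [hh a haL hak, hh _ (Over.sub' hcL haL) (by rw [Wd.len_sub]; exact hak)]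
    · intro a e a' haL heL ha'L hlen
      have h1 : a.len ≤ k := le_trans (le_add_of_nonneg_right (World.zero_le' _)) hlen
      have h2 : Over L (a ++ Wd.sg e ++ a') :=
        Over.append_iff.2 ⟨Over.append_iff.2 ⟨haL, Over.sg_iff.2 heL⟩, ha'L⟩
      have h3 : (a ++ Wd.sg e ++ a').len ≤ k := by
        rw [Wd.len_append, Wd.len_append, Wd.len_sg]
        have e1 : a.len + 1 + a'.len = a.len + (a'.len + 1) := by ring
        rw [e1]
        exact hlen
      refine ⟨a', ha'L, ?_⟩
      rw [hh _ h2 h3, hh a haL h1]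
  refine ⟨?_, ?_⟩
  · intro e _
    refine ⟨h, hS 0, ?_⟩
    intro a a' ha ha' _ hl
    have h01 : (0 : M) ≤ 1 := World.zero_le' _
    rw [eq_of_over_one (Over.mono h01 ha) (Over.mono h01 ha') hl]
  · intro _ e _
    refine ⟨h, hS 1, ?_⟩
    intro a a' ha ha' _ hl
    rw [eq_of_over_one ha ha' hl]

end Pool.Agent.Helper85.CS
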