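import Pool.Agent.Helper75.CS.Goals

/-!
# CSBASE: the three caps in `F_3^6` (Edel), as codes: bits `0..5` are the positions of `1`, bits `6..11`
the positions of `2`
-/

set_option autoImplicit false

namespace Pool.Agent.Helper85.CS

open Finset
open Pool.Agent.Helper75.CS (Cap NoSum Sys bad3 S_CSBASE)

/-- the vector with the given code -/
def dec (n : ℕ) : Fin 6 → ZMod 3 := fun i =>
  if n.testBit i then 1 else if n.testBit (i + 6) then 2 else 0

/-- the code of the third point of the line -/
def third (n m : ℕ) : ℕ :=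
  ((((n >>> 6) ^^^ (m >>> 6)) &&& (63 ^^^ ((n &&& 63) ||| (m &&& 63)))) |||
      ((n &&& 63) &&& (m &&& 63))) |||
    (((((n &&& 63) ^^^ (m &&& 63)) &&& (63 ^^^ ((n >>> 6) ||| (m >>> 6)))) |||
      ((n >>> 6) &&& (m >>> 6))) <<< 6)

/-- the valid codes -/
def Val (n : ℕ) : Prop := n < 4096 ∧ ∀ i : Fin 6, ¬ (n.testBit i ∧ n.testBit (i + 6))

/-- the codes of the three caps -/
def L0 : List ℕ := [
  1, 2, 4, 8, 16, 32, 64, 128, 256, 512, 1024, 2048]

def L1 : List ℕ := [
  7, 11, 21, 26, 28, 38, 41, 44, 49, 50, 63, 70, 74, 84, 104, 112, 133, 137, 152, 164, 176, 196,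
  200, 252, 259, 273, 280, 290, 296, 322, 336, 378, 385, 416, 441, 448, 515, 530, 532, 545, 548,
  578, 608, 630, 641, 656, 693, 704, 784, 800, 819, 1008, 1029, 1034, 1036, 1057, 1058, 1092,
  1120, 1134, 1160, 1184, 1197, 1281, 1288, 1323, 1344, 1512, 1538, 1540, 1575, 1664, 1764, 1792,
  1890, 1953, 2054, 2057, 2060, 2065, 2066, 2120, 2128, 2142, 2180, 2192, 2205, 2306, 2312, 2331,
  2432, 2520, 2561, 2564, 2583, 2624, 2772, 2816, 2898, 2961, 3073, 3074, 3087, 3136, 3200, 3276,
  3402, 3465, 3654, 3717, 3843, 4032]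

def L2 : List ℕ := [
  13, 14, 19, 22, 25, 35, 37, 42, 52, 56, 63, 76, 82, 88, 98, 100, 140, 145, 148, 161, 168, 208,
  224, 252, 265, 266, 274, 289, 304, 328, 352, 378, 392, 400, 441, 517, 518, 529, 546, 560, 580,
  592, 630, 644, 672, 693, 769, 770, 819, 832, 896, 1008, 1027, 1030, 1033, 1060, 1064, 1090,
  1096, 1134, 1153, 1156, 1197, 1216, 1282, 1312, 1323, 1408, 1512, 1537, 1568, 1575, 1600, 1764,
  1890, 1953, 2051, 2053, 2058, 2068, 2072, 2114, 2116, 2142, 2177, 2184, 2205, 2240, 2305, 2320,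
  2331, 2368, 2520, 2562, 2576, 2583, 2688, 2772, 2898, 2961, 3076, 3080, 3087, 3276, 3328, 3402,
  3465, 3584, 3654, 3717, 3843, 4032]

def L (s : Fin 3) : List ℕ := if s = 0 then L0 else if s = 1 then L1 else L2

/-- the bit mask of a list of codes -/
def mask : List ℕ → ℕ
  | [] => 0
  | x :: l => (1 <<< x) ||| mask l

theorem testBit_mask (l : List ℕ) (x : ℕ) (h : x ∈ l) : (mask l).testBit x = true := by
  induction l with
  | nil => simp at h
  | cons a l ih =>
    rw [mask, Nat.testBit_or]
    rcases List.mem_cons.1 h with rfl | h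
    · simp
    · rw [ih h]
      simp

theorem dec_one (n : ℕ) (i : Fin 6) : dec n i = 1 ↔ n.testBit i = true := by
  unfold dec
  split_ifs with h1 h2
  · simp [h1]
  · simp only [h1]
    decide
  · simp only [h1]
    decide

theorem dec_two (n : ℕ) (hn : Val n) (i : Fin 6) : dec n i = 2 ↔ n.testBit (i + 6) = true := by
  have h := hn.2 i
  unfold dec
  split_ifs with h1 h2
  · have h3 : n.testBit (i + 6) = false := by
      rw [Bool.eq_false_iff]
      exact fun h2 => h ⟨h1, h2⟩
    rw [h3]
    decide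
  · simp [h2]
  · simp only [h2]
    decide

theorem dec_inj {n m : ℕ} (hn : Val n) (hm : Val m) (h : dec n = dec m) : n = m := by
  apply Nat.eq_of_testBit_eq
  intro j
  rcases lt_or_ge j 6 with hj | hj
  · have h1 := dec_one n ⟨j, hj⟩
    have h2 := dec_one m ⟨j, hj⟩
    rw [h] at h1
    exact Bool.eq_iff_iff.2 (h1.symm.trans h2)
  · rcases lt_or_ge j 12 with hj2 | hj2
    · have h1 := dec_two n hn ⟨j - 6, by omega⟩
      have h2 := dec_two m hm ⟨j - 6, by omega⟩
      rw [h] at h1
      have h3 := Bool.eq_iff_iff.2 (h1.symm.trans h2)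
      have h4 : j - 6 + 6 = j := by omega
      simpa only [h4] using h3
    · have h1 : ∀ k : ℕ, k < 4096 → k.testBit j = false := by
        intro k hk
        apply Nat.testBit_lt_two_pow
        exact lt_of_lt_of_le (by norm_num; exact hk : k < 2 ^ 12) (Nat.pow_le_pow_right (by norm_num) hj2)
      rw [h1 n hn.1, h1 m hm.1]

theorem third_low (n m : ℕ) (i : Fin 6) : (third n m).testBit i =
    (((n.testBit (i + 6) ^^ m.testBit (i + 6)) && !(n.testBit i || m.testBit i)) ||
      (n.testBit i && m.testBit i)) := by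
  have h63 : (63 : ℕ).testBit i = true := by fin_cases i <;> decide
  have h6 : ¬ (6 : ℕ) ≤ i := by omega
  simp only [third, Nat.testBit_or, Nat.testBit_and, Nat.testBit_xor, Nat.testBit_shiftRight,
    Nat.testBit_shiftLeft, h63, ge_iff_le, h6, decide_false, Bool.false_and, Bool.or_false,
    Bool.and_true, Nat.add_comm 6, Bool.true_xor]

theorem third_high (n m : ℕ) (hn : n < 4096) (hm : m < 4096) (i : Fin 6) :
    (third n m).testBit (i + 6) =
    (((n.testBit i ^^ m.testBit i) && !(n.testBit (i + 6) || m.testBit (i + 6))) ||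
      (n.testBit (i + 6) && m.testBit (i + 6))) := by
  have h63 : (63 : ℕ).testBit i = true := by fin_cases i <;> decide
  have h63' : (63 : ℕ).testBit (i + 6) = false := by fin_cases i <;> decide
  have h6 : (6 : ℕ) ≤ i + 6 := by omega
  have h7 : (i : ℕ) + 6 - 6 = i := by omega
  have h8 : ∀ k : ℕ, k < 4096 → k.testBit (6 + (i + 6)) = false := by
    intro k hk
    apply Nat.testBit_lt_two_pow
    exact lt_of_lt_of_le (by norm_num; exact hk : k < 2 ^ 12) (Nat.pow_le_pow_right (by norm_num) (by omega))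
  simp only [third, Nat.testBit_or, Nat.testBit_and, Nat.testBit_xor, Nat.testBit_shiftRight,
    Nat.testBit_shiftLeft, h63, h63', ge_iff_le, h6, h7, decide_true,
    Bool.true_and, Bool.and_true, Bool.and_false, Bool.or_false, Bool.false_xor, Bool.xor_false,
    Nat.add_comm 6, Bool.true_xor, Bool.false_and, Bool.false_or]

theorem third_val (n m : ℕ) (hn : Val n) (hm : Val m) : Val (third n m) := by
  constructor
  · have h1 : n >>> 6 < 2 ^ 6 := by
      rw [Nat.shiftRight_eq_div_pow]
      have := hn.1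
      omega
    have h2 : m >>> 6 < 2 ^ 6 := by
      rw [Nat.shiftRight_eq_div_pow]
      have := hm.1
      omega
    have h3 : n &&& 63 < 2 ^ 6 := Nat.and_lt_two_pow _ (by norm_num)
    have h4 : m &&& 63 < 2 ^ 6 := Nat.and_lt_two_pow _ (by norm_num)
    have h5 : (((n >>> 6) ^^^ (m >>> 6)) &&& (63 ^^^ ((n &&& 63) ||| (m &&& 63)))) |||
        ((n &&& 63) &&& (m &&& 63)) < 2 ^ 6 :=
      Nat.or_lt_two_pow (Nat.and_lt_two_pow _ (Nat.xor_lt_two_pow (by norm_num)
        (Nat.or_lt_two_pow h3 h4))) (Nat.and_lt_two_pow _ h4)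
    have h6 : (((n &&& 63) ^^^ (m &&& 63)) &&& (63 ^^^ ((n >>> 6) ||| (m >>> 6)))) |||
        ((n >>> 6) &&& (m >>> 6)) < 2 ^ 6 :=
      Nat.or_lt_two_pow (Nat.and_lt_two_pow _ (Nat.xor_lt_two_pow (by norm_num)
        (Nat.or_lt_two_pow h1 h2))) (Nat.and_lt_two_pow _ h2)
    have h7 : third n m < 2 ^ 12 := by
      unfold third
      refine Nat.or_lt_two_pow (lt_of_lt_of_le h5 (by norm_num)) ?_
      rw [Nat.shiftLeft_eq]
      omega
    exact h7
  · intro i
    have h1 := hn.2 i
    have h2 := hm.2 i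
    rw [third_low, third_high n m hn.1 hm.1]
    revert h1 h2
    generalize n.testBit i = a
    generalize n.testBit (i + 6) = b
    generalize m.testBit i = c
    generalize m.testBit (i + 6) = d
    revert a b c d
    decide

theorem dec_third (n m : ℕ) (hn : Val n) (hm : Val m) : dec n + dec m + dec (third n m) = 0 := by
  funext i
  have h1 := hn.2 i
  have h2 := hm.2 i
  simp only [Pi.add_apply, Pi.zero_apply, dec]
  rw [third_low, third_high n m hn.1 hm.1]
  revert h1 h2
  generalize n.testBit i = a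
  generalize n.testBit (i + 6) = b
  generalize m.testBit i = c
  generalize m.testBit (i + 6) = d
  revert a b c d
  decide

theorem third_unique {x y z : ℕ} (hx : Val x) (hy : Val y) (hz : Val z)
    (h : dec x + dec y + dec z = 0) : z = third x y := by
  apply dec_inj hz (third_val x y hx hy)
  have h1 := dec_third x y hx hy
  rw [← h1] at h
  exact add_left_cancel h

/-- the set of a list of codes -/
def st (l : List ℕ) : Finset (Fin 6 → ZMod 3) := l.toFinset.image dec

theorem mem_st {l : List ℕ} {a : Fin 6 → ZMod 3} (h : a ∈ st l) : ∃ x ∈ l, dec x = a := by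
  obtain ⟨x, hx, rfl⟩ := mem_image.1 h
  exact ⟨x, List.mem_toFinset.1 hx, rfl⟩

def vchk (l : List ℕ) : Bool := l.all fun n => decide (n < 4096) && (n &&& (n >>> 6) == 0)

theorem vchk_spec {l : List ℕ} (h : vchk l = true) : ∀ x ∈ l, Val x := by
  intro x hx
  have h1 := List.all_eq_true.1 h x hx
  rw [Bool.and_eq_true, decide_eq_true_eq, beq_iff_eq] at h1
  refine ⟨h1.1, fun i hi => ?_⟩
  have h2 : (x &&& (x >>> 6)).testBit i = true := by
    rw [Nat.testBit_and, Nat.testBit_shiftRight, Nat.add_comm 6, hi.1, hi.2]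
    rfl
  rw [h1.2, Nat.zero_testBit] at h2
  exact absurd h2 (by decide)

/-- no zero sum -/
def nchk (l l' : List ℕ) (m : ℕ) : Bool := l.all fun x => l'.all fun y => !(m.testBit (third x y))

theorem nosum_of {l1 l2 l3 : List ℕ} (h1 : vchk l1 = true) (h2 : vchk l2 = true)
    (h3 : vchk l3 = true) (h : nchk l1 l2 (mask l3) = true) : NoSum (st l1) (st l2) (st l3) := by
  intro a ha b hb c hc h0
  obtain ⟨x, hx, rfl⟩ := mem_st ha
  obtain ⟨y, hy, rfl⟩ := mem_st hb
  obtain ⟨z, hz, rfl⟩ := mem_st hc
  have h4 := third_unique (vchk_spec h1 x hx) (vchk_spec h2 y hy) (vchk_spec h3 z hz) h0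
  have h5 := List.all_eq_true.1 (List.all_eq_true.1 h x hx) y hy
  rw [← h4, testBit_mask l3 z hz] at h5
  exact absurd h5 (by decide)

/-- cap -/
def cchk (l : List ℕ) (m : ℕ) : Bool :=
  l.all fun x => l.all fun y => !(m.testBit (third x y)) || x == y

theorem dbl (u w : ZMod 3) (h : u + u + w = 0) : u = w := by
  revert u w
  decide

theorem cap_of {l : List ℕ} (h1 : vchk l = true) (h : cchk l (mask l) = true) : Cap (st l) := by
  intro a ha b hb c hc h0
  obtain ⟨x, hx, rfl⟩ := mem_st ha
  obtain ⟨y, hy, rfl⟩ := mem_st hb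
  obtain ⟨z, hz, rfl⟩ := mem_st hc
  have h4 := third_unique (vchk_spec h1 x hx) (vchk_spec h1 y hy) (vchk_spec h1 z hz) h0
  have h5 := List.all_eq_true.1 (List.all_eq_true.1 h x hx) y hy
  rw [← h4, testBit_mask l z hz] at h5
  have h6 : x = y := by simpa using h5
  subst h6
  refine ⟨rfl, ?_⟩
  funext i
  exact dbl _ _ (congrFun h0 i)

theorem card_st {l : List ℕ} (h1 : vchk l = true) (h : l.Nodup) : (st l).card = l.length := by
  rw [st, Finset.card_image_of_injOn, List.toFinset_card_of_nodup h]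
  intro x hx y hy hxy
  exact dec_inj (vchk_spec h1 x (List.mem_toFinset.1 (mem_coe.1 hx)))
    (vchk_spec h1 y (List.mem_toFinset.1 (mem_coe.1 hy))) hxy

theorem v0 : vchk L0 = true := by decide +kernel
theorem v1 : vchk L1 = true := by decide +kernel
theorem v2 : vchk L2 = true := by decide +kernel

theorem c0 : cchk L0 (mask L0) = true := by decide +kernel
theorem c1 : cchk L1 (mask L1) = true := by decide +kernel
theorem c2 : cchk L2 (mask L2) = true := by decide +kernel

theorem n001 : nchk L0 L0 (mask L1) = true := by decide +kernel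
theorem n002 : nchk L0 L0 (mask L2) = true := by decide +kernel
theorem n012 : nchk L0 L1 (mask L2) = true := by decide +kernel

theorem d0 : L0.Nodup := by decide +kernel
theorem d1 : L1.Nodup := by decide +kernel
theorem d2 : L2.Nodup := by decide +kernel

theorem l0 : L0.length = 12 := by decide +kernel
theorem l1 : L1.length = 112 := by decide +kernel
theorem l2 : L2.length = 112 := by decide +kernel

theorem NoSum.swap12 {A B C : Finset (Fin 6 → ZMod 3)} (h : NoSum A B C) : NoSum B A C :=
  fun b hb a ha c hc h0 => h a ha b hb c hc (by rw [← h0]; abel)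

theorem NoSum.swap23 {A B C : Finset (Fin 6 → ZMod 3)} (h : NoSum A B C) : NoSum A C B :=
  fun a ha c hc b hb h0 => h a ha b hb c hc (by rw [← h0]; abel)

theorem good_of (T : Fin 3 → Finset (Fin 6 → ZMod 3)) (g001 : NoSum (T 0) (T 0) (T 1))
    (g002 : NoSum (T 0) (T 0) (T 2)) (g012 : NoSum (T 0) (T 1) (T 2)) :
    ∀ a b c, bad3 a b c = false → NoSum (T a) (T b) (T c) := by
  intro a b c h
  fin_cases a <;> fin_cases b <;> fin_cases c <;>
    first
    | exact absurd h (by decide)
    | exact g001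
    | exact g002
    | exact g012
    | exact NoSum.swap12 g012
    | exact NoSum.swap23 g001
    | exact NoSum.swap23 g002
    | exact NoSum.swap23 g012
    | exact NoSum.swap12 (NoSum.swap23 g001)
    | exact NoSum.swap12 (NoSum.swap23 g002)
    | exact NoSum.swap12 (NoSum.swap23 g012)
    | exact NoSum.swap23 (NoSum.swap12 g012)
    | exact NoSum.swap23 (NoSum.swap12 (NoSum.swap23 g012))

theorem csbase : S_CSBASE := by
  refine ⟨{
    set := fun s => st (L s)
    bad := bad3
    cap := ?_
    good := good_of (fun s => st (L s)) (nosum_of v0 v0 v1 n001) (nosum_of v0 v0 v2 n002)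
      (nosum_of v0 v1 v2 n012) }, fun _ _ _ => rfl, ?_, ?_, ?_⟩
  · intro s
    fin_cases s
    · exact cap_of v0 c0
    · exact cap_of v1 c1
    · exact cap_of v2 c2
  · exact (card_st v0 d0).trans l0
  · exact (card_st v1 d1).trans l1
  · exact (card_st v2 d2).trans l2

end Pool.Agent.Helper85.CS
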